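import Pool.Agent.W312.TP.Stm

set_option autoImplicit false

namespace Pool.Agent.W924.TP

open Pool.Agent.W312.TP

section Gen

variable (k : ℕ) (A : ℕ → List End) (m : ℕ → ℕ)

/-- the number of vertices after `q` operations -/
def base : ℕ → ℕ
  | 0 => k
  | q + 1 => base q + m q

lemma base_mono : Monotone (base k m) := monotone_nat_of_le_succ fun _ => Nat.le_add_right _ _

lemma le_base (q : ℕ) : k ≤ base k m q := base_mono k m (Nat.zero_le q)

/-- the edges after `q` operations -/
def ES (q : ℕ) : Set (ℕ × ℕ) := {z | (z.1 < z.2 ∧ z.2 < k) ∨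
  ∃ j < q, base k m j ≤ z.2 ∧ z.2 < base k m j + m j ∧
    (z.1 ∈ (A j).map Prod.fst ∨ (base k m j ≤ z.1 ∧ z.1 < z.2))}

theorem gen (Q : ℕ) (h1 : ∀ q < Q, ∀ z ∈ A q, z.1 < k) (h2 : ∀ q < Q, ((A q).map Prod.fst).Nodup)
    (h3 : ∀ q < Q, ∀ q' < Q, ∀ z, z ∈ A q → z ∈ A q' → q = q') : ∀ q ≤ Q,
    ∃ e, Built (base k m q) (1 + q) (ES k A m q) e ∧ (∀ j < q, ∀ z ∈ A j, e z.1 z.2 = 1 + j) ∧
      (∀ j < q, ∀ v, base k m j ≤ v → v < base k m (j + 1) → ∀ b, e v b = 1 + j) ∧
      (∀ v < k, ∀ b, (∀ j < q, (v, b) ∉ A j) → e v b = 0) := by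
  intro q
  induction q with
  | zero =>
    intro _
    refine ⟨fun _ _ => 0, ?_, ?_, ?_, ?_⟩
    · have h : ES k A m 0 = {z | z.1 < z.2 ∧ z.2 < k} := by
        ext z
        simp [ES]
      rw [h]
      exact Built.root k
    · intro j hj
      exact absurd hj (Nat.not_lt_zero j)
    · intro j hj
      exact absurd hj (Nat.not_lt_zero j)
    · intro v _ b _
      rfl
  | succ q ih =>
    intro hq
    obtain ⟨e, hB, e1, e2, e3⟩ := ih (by omega)
    have hA : ∀ z ∈ A q, z.1 < base k m q ∧ e z.1 z.2 = 0 := by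
      intro z hz
      refine ⟨lt_of_lt_of_le (h1 q (by omega) z hz) (le_base k m q),
        e3 _ (h1 q (by omega) z hz) _ fun j hj hz' => ?_⟩
      have := h3 q (by omega) j (by omega) z hz hz'
      omega
    have hB' := Built.op hB 0 (A q) (m q) (by omega) hA (h2 q (by omega))
    refine ⟨fun v b => if (v, b) ∈ A q ∨ base k m q ≤ v then 1 + q else e v b, ?_, ?_, ?_, ?_⟩
    · have hE : ES k A m (q + 1) = {z | z ∈ ES k A m q ∨ (base k m q ≤ z.2 ∧
          z.2 < base k m q + m q ∧ (z.1 ∈ (A q).map Prod.fst ∨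
            (base k m q ≤ z.1 ∧ z.1 < z.2)))} := by
        ext z
        constructor
        · rintro (h | ⟨j, hj, h⟩)
          · exact Or.inl (Or.inl h)
          · rcases Nat.lt_succ_iff_lt_or_eq.1 hj with hj' | rfl
            · exact Or.inl (Or.inr ⟨j, hj', h⟩)
            · exact Or.inr h
        · rintro ((h | ⟨j, hj, h⟩) | h)
          · exact Or.inl h
          · exact Or.inr ⟨j, by omega, h⟩
          · exact Or.inr ⟨q, by omega, h⟩
      rw [hE]
      exact hB'
    · intro j hj z hz
      by_cases hjq : j = q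
      · subst hjq
        exact if_pos (Or.inl hz)
      · beta_reduce
        rw [if_neg]
        · exact e1 j (by omega) z hz
        · rintro (h | h)
          · exact hjq (h3 j (by omega) q (by omega) z hz h)
          · have := h1 j (by omega) z hz
            have := le_base k m q
            omega
    · intro j hj v hv hv' b
      by_cases hjq : j = q
      · subst hjq
        exact if_pos (Or.inr hv)
      · beta_reduce
        rw [if_neg]
        · exact e2 j (by omega) v hv hv' b
        · rintro (h | h)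
          · have := h1 q (by omega) _ h
            have := le_base k m j
            simp only at *
            omega
          · have : base k m (j + 1) ≤ base k m q := base_mono k m (by omega)
            omega
    · intro v hv b h
      beta_reduce
      rw [if_neg]
      · exact e3 v hv b fun j hj => h j (by omega)
      · rintro (h' | h')
        · exact h q (by omega) h'
        · have := le_base k m q
          omega

end Gen

/-! ### membership -/

lemma mem_opE (A : List ℕ) (n m : ℕ) (z : ℕ × ℕ) : z ∈ opE A n m ↔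
    n ≤ z.2 ∧ z.2 < n + m ∧ (z.1 ∈ A ∨ (n ≤ z.1 ∧ z.1 < z.2)) := by
  obtain ⟨x, y⟩ := z
  simp only [opE, List.mem_flatMap, List.mem_range, List.mem_map, List.mem_append, Prod.mk.injEq]
  constructor
  · rintro ⟨j, hj, w, hw, rfl, rfl⟩
    refine ⟨by omega, by omega, ?_⟩
    rcases hw with hw | ⟨i, hi, rfl⟩
    · exact Or.inl hw
    · exact Or.inr ⟨by omega, by omega⟩
  · rintro ⟨h1, h2, h3⟩
    refine ⟨y - n, by omega, x, ?_, rfl, by omega⟩
    rcases h3 with h3 | ⟨h3, h4⟩
    · exact Or.inl h3
    · exact Or.inr ⟨x - n, by omega, by omega⟩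

lemma mem_cliqueE (n : ℕ) (z : ℕ × ℕ) : z ∈ cliqueE n ↔ z.1 < z.2 ∧ z.2 < n := by
  obtain ⟨x, y⟩ := z
  simp only [cliqueE, List.mem_flatMap, List.mem_range, List.mem_map, Prod.mk.injEq]
  constructor
  · rintro ⟨j, hj, w, hw, rfl, rfl⟩
    exact ⟨hw, hj⟩
  · rintro ⟨h1, h2⟩
    exact ⟨y, h2, x, h1, rfl, rfl⟩

lemma mem_coreE (t p : ℕ) (gs : List Gad) (z : ℕ × ℕ) : z ∈ coreE t p gs ↔
    (z.1 < z.2 ∧ z.2 < nC t p) ∨
    (∃ i < p, z ∈ opE [el t (2 * i), el t (2 * i + 1)] (hBase t p i) (rr t - 2)) ∨
    ∃ i g, gs[i]? = some g ∧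
      z ∈ opE [el t g.2.1, el t g.2.2.1, el t g.2.2.2] (aBase t p i) (kk t) := by
  simp only [coreE, List.mem_append, List.mem_flatMap, List.mem_range, mem_cliqueE, or_assoc,
    Prod.exists, List.mk_mem_zipIdx_iff_getElem?]
  constructor
  · rintro (h | h | ⟨a, b, c, d, i, h1, h2⟩)
    · exact Or.inl h
    · exact Or.inr (Or.inl h)
    · exact Or.inr (Or.inr ⟨i, a, b, c, d, h1, h2⟩)
  · rintro (h | h | ⟨i, a, b, c, d, h1, h2⟩)
    · exact Or.inl h
    · exact Or.inr (Or.inl h)
    · exact Or.inr (Or.inr ⟨a, b, c, d, i, h1, h2⟩)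

/-! ### the operations of the core -/

/-- the ends which are moved -/
def AA (t p : ℕ) (gs : List Gad) (q : ℕ) : List End :=
  if q < p then [(el t (2 * q), false), (el t (2 * q + 1), false)]
  else match gs[q - p]? with
    | some g => [(el t g.2.1, true), (el t g.2.2.1, true), (el t g.2.2.2, true)]
    | none => []

/-- the number of new vertices -/
def mm (t p : ℕ) (q : ℕ) : ℕ := if q < p then rr t - 2 else kk t

lemma AA_pair {t p : ℕ} {gs : List Gad} {q : ℕ} (h : q < p) :
    AA t p gs q = [(el t (2 * q), false), (el t (2 * q + 1), false)] := if_pos h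

lemma AA_gad {t p : ℕ} {gs : List Gad} {i : ℕ} {g : Gad} (h : gs[i]? = some g) :
    AA t p gs (p + i) = [(el t g.2.1, true), (el t g.2.2.1, true), (el t g.2.2.2, true)] := by
  rw [AA, if_neg (by omega), Nat.add_sub_cancel_left, h]

lemma base_h (t p : ℕ) : ∀ q ≤ p, base (nC t p) (mm t p) q = hBase t p q := by
  intro q
  induction q with
  | zero => intro _; simp [base, hBase]
  | succ q ih =>
    intro hq
    rw [base, ih (by omega), mm, if_pos (by omega), hBase, hBase]
    ring

lemma base_a (t p : ℕ) (i : ℕ) : base (nC t p) (mm t p) (p + i) = aBase t p i := by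
  induction i with
  | zero => rw [Nat.add_zero, base_h t p p le_rfl, hBase, aBase, Nat.mul_zero, Nat.add_zero]
  | succ i ih =>
    rw [← Nat.add_assoc, base, ih, mm, if_neg (by omega), aBase, aBase]
    ring

lemma getElem?_of_lt {gs : List Gad} {i : ℕ} (h : i < gs.length) : ∃ g, gs[i]? = some g :=
  ⟨gs[i], List.getElem?_eq_getElem h⟩

lemma lt_of_getElem? {gs : List Gad} {i : ℕ} {g : Gad} (h : gs[i]? = some g) : i < gs.length :=
  (List.getElem?_eq_some_iff.1 h).1

lemma ES_core (t p : ℕ) (gs : List Gad) :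
    ES (nC t p) (AA t p gs) (mm t p) (p + gs.length) = {z | z ∈ coreE t p gs} := by
  ext z
  rw [Set.mem_setOf_eq, mem_coreE]
  constructor
  · rintro (h | ⟨j, hj, h⟩)
    · exact Or.inl h
    · by_cases hjp : j < p
      · refine Or.inr (Or.inl ⟨j, hjp, ?_⟩)
        rw [base_h t p j hjp.le, mm, if_pos hjp, AA_pair hjp] at h
        rw [mem_opE]
        exact h
      · obtain ⟨i, rfl⟩ : ∃ i, j = p + i := ⟨j - p, by omega⟩
        obtain ⟨g, hg⟩ := getElem?_of_lt (gs := gs) (i := i) (by omega)
        refine Or.inr (Or.inr ⟨i, g, hg, ?_⟩)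
        rw [base_a, mm, if_neg hjp, AA_gad hg] at h
        rw [mem_opE]
        exact h
  · rintro (h | ⟨i, hi, h⟩ | ⟨i, g, hg, h⟩)
    · exact Or.inl h
    · refine Or.inr ⟨i, by omega, ?_⟩
      rw [base_h t p i hi.le, mm, if_pos hi, AA_pair hi]
      rw [mem_opE] at h
      exact h
    · refine Or.inr ⟨p + i, by have := lt_of_getElem? hg; omega, ?_⟩
      rw [base_a, mm, if_neg (by omega), AA_gad hg]
      rw [mem_opE] at h
      exact h

/-! ### consequences of `POk` -/

lemma pok_lt {p : ℕ} {gs : List Gad} (h : POk p gs) {i : ℕ} {g : Gad} (hg : gs[i]? = some g) :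
    g.2.1 < 2 * p ∧ g.2.2.1 < 2 * p ∧ g.2.2.2 < 2 * p := by
  have hm : g ∈ gs := List.mem_of_getElem? hg
  have h1 : ∀ e ∈ [g.2.1, g.2.2.1, g.2.2.2], e < 2 * p := by
    intro e he
    exact h.2 e (List.mem_flatMap.2 ⟨g, hm, he⟩)
  exact ⟨h1 _ (by simp), h1 _ (by simp), h1 _ (by simp)⟩

lemma pok_nodup {p : ℕ} {gs : List Gad} (h : POk p gs) {i : ℕ} {g : Gad} (hg : gs[i]? = some g) :
    [g.2.1, g.2.2.1, g.2.2.2].Nodup := by
  have hm : g ∈ gs := List.mem_of_getElem? hg
  exact (List.nodup_flatMap.1 h.1).1 g hm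

lemma pok_inj {p : ℕ} {gs : List Gad} (h : POk p gs) {i j : ℕ} {g g' : Gad}
    (hg : gs[i]? = some g) (hg' : gs[j]? = some g') {e : ℕ} (he : e ∈ [g.2.1, g.2.2.1, g.2.2.2])
    (he' : e ∈ [g'.2.1, g'.2.2.1, g'.2.2.2]) : i = j := by
  have h2 := (List.nodup_flatMap.1 h.1).2
  rw [List.pairwise_iff_getElem] at h2
  obtain ⟨hi, rfl⟩ := List.getElem?_eq_some_iff.1 hg
  obtain ⟨hj, rfl⟩ := List.getElem?_eq_some_iff.1 hg'
  rcases lt_trichotomy i j with hij | hij | hij
  · exact absurd he' (h2 i j hi hj hij he)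
  · exact hij
  · exact absurd he (h2 j i hj hi hij he')

lemma AA_lt {t p : ℕ} {gs : List Gad} (h : POk p gs) : ∀ q < p + gs.length,
    ∀ z ∈ AA t p gs q, z.1 < nC t p := by
  intro q hq z hz
  by_cases hqp : q < p
  · rw [AA_pair hqp] at hz
    simp only [List.mem_cons, List.not_mem_nil, or_false] at hz
    rcases hz with rfl | rfl <;> simp only [nC, el] <;> omega
  · obtain ⟨i, rfl⟩ : ∃ i, q = p + i := ⟨q - p, by omega⟩
    obtain ⟨g, hg⟩ := getElem?_of_lt (gs := gs) (i := i) (by omega)
    rw [AA_gad hg] at hz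
    obtain ⟨h1, h2, h3⟩ := pok_lt h hg
    simp only [List.mem_cons, List.not_mem_nil, or_false] at hz
    rcases hz with rfl | rfl | rfl <;> simp only [nC, el] <;> omega

lemma AA_nodup {t p : ℕ} {gs : List Gad} (h : POk p gs) : ∀ q < p + gs.length,
    ((AA t p gs q).map Prod.fst).Nodup := by
  intro q hq
  by_cases hqp : q < p
  · rw [AA_pair hqp]
    simp only [List.map_cons, List.map_nil, List.nodup_cons, List.mem_cons, List.not_mem_nil,
      or_false, not_false_eq_true, List.nodup_nil, and_true, el]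
    omega
  · obtain ⟨i, rfl⟩ : ∃ i, q = p + i := ⟨q - p, by omega⟩
    obtain ⟨g, hg⟩ := getElem?_of_lt (gs := gs) (i := i) (by omega)
    rw [AA_gad hg]
    have h1 := pok_nodup h hg
    simp only [List.map_cons, List.map_nil, List.nodup_cons, List.mem_cons, List.not_mem_nil,
      or_false, not_false_eq_true, List.nodup_nil, and_true, el] at h1 ⊢
    omega

lemma AA_inj {t p : ℕ} {gs : List Gad} (h : POk p gs) : ∀ q < p + gs.length,
    ∀ q' < p + gs.length, ∀ z, z ∈ AA t p gs q → z ∈ AA t p gs q' → q = q' := by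
  intro q hq q' hq' z hz hz'
  by_cases hqp : q < p
  · rw [AA_pair hqp] at hz
    simp only [List.mem_cons, List.not_mem_nil, or_false] at hz
    by_cases hqp' : q' < p
    · rw [AA_pair hqp'] at hz'
      simp only [List.mem_cons, List.not_mem_nil, or_false] at hz'
      have h1 : z.1 = t + 1 + 2 * q ∨ z.1 = t + 1 + (2 * q + 1) := by
        rcases hz with rfl | rfl
        · exact Or.inl rfl
        · exact Or.inr rfl
      have h2 : z.1 = t + 1 + 2 * q' ∨ z.1 = t + 1 + (2 * q' + 1) := by
        rcases hz' with rfl | rfl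
        · exact Or.inl rfl
        · exact Or.inr rfl
      omega
    · obtain ⟨i, rfl⟩ : ∃ i, q' = p + i := ⟨q' - p, by omega⟩
      obtain ⟨g, hg⟩ := getElem?_of_lt (gs := gs) (i := i) (by omega)
      rw [AA_gad hg] at hz'
      simp only [List.mem_cons, List.not_mem_nil, or_false] at hz'
      have h1 : z.2 = false := by
        rcases hz with rfl | rfl <;> rfl
      have h2 : z.2 = true := by
        rcases hz' with rfl | rfl | rfl <;> rfl
      rw [h1] at h2
      exact absurd h2 (by decide)
  · obtain ⟨i, rfl⟩ : ∃ i, q = p + i := ⟨q - p, by omega⟩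
    obtain ⟨g, hg⟩ := getElem?_of_lt (gs := gs) (i := i) (by omega)
    rw [AA_gad hg] at hz
    simp only [List.mem_cons, List.not_mem_nil, or_false] at hz
    by_cases hqp' : q' < p
    · rw [AA_pair hqp'] at hz'
      simp only [List.mem_cons, List.not_mem_nil, or_false] at hz'
      have h1 : z.2 = false := by
        rcases hz' with rfl | rfl <;> rfl
      have h2 : z.2 = true := by
        rcases hz with rfl | rfl | rfl <;> rfl
      rw [h1] at h2
      exact absurd h2 (by decide)
    · obtain ⟨j, rfl⟩ : ∃ j, q' = p + j := ⟨q' - p, by omega⟩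
      obtain ⟨g', hg'⟩ := getElem?_of_lt (gs := gs) (i := j) (by omega)
      rw [AA_gad hg'] at hz'
      simp only [List.mem_cons, List.not_mem_nil, or_false] at hz'
      have h1 : ∃ e ∈ [g.2.1, g.2.2.1, g.2.2.2], z.1 = t + 1 + e := by
        rcases hz with rfl | rfl | rfl
        · exact ⟨_, by simp, rfl⟩
        · exact ⟨_, by simp, rfl⟩
        · exact ⟨_, by simp, rfl⟩
      have h2 : ∃ e ∈ [g'.2.1, g'.2.2.1, g'.2.2.2], z.1 = t + 1 + e := by
        rcases hz' with rfl | rfl | rfl
        · exact ⟨_, by simp, rfl⟩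
        · exact ⟨_, by simp, rfl⟩
        · exact ⟨_, by simp, rfl⟩
      obtain ⟨e, he, he1⟩ := h1
      obtain ⟨e', he', he1'⟩ := h2
      have : e = e' := by omega
      subst this
      rw [pok_inj h hg hg' he he']

/-! ### the slots -/

/-- the ends in slots -/
def ends (L : List Slot) : List End := L.flatMap fun q => [q.2.1, q.2.2]

lemma ends_append (L L' : List Slot) : ends (L ++ L') = ends L ++ ends L' :=
  List.flatMap_append

lemma mem_ends {L : List Slot} {z : End} : z ∈ ends L ↔ ∃ q ∈ L, z = q.2.1 ∨ z = q.2.2 := by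
  simp [ends]

lemma chain_succ (ν : ℕ) (x : End) (n m : ℕ) :
    chain ν x n (m + 1) = chain ν x n m ++ [(ν, lastEnd x n m, (n + m, false))] := by
  rw [chain, chain, List.range_succ, List.map_append]
  rfl

lemma mem_chain {ν : ℕ} {x : End} {n m : ℕ} {q : Slot} :
    q ∈ chain ν x n m ↔ ∃ j < m, q = (ν, lastEnd x n j, (n + j, false)) := by
  simp only [chain, List.mem_map, List.mem_range]
  constructor
  · rintro ⟨j, hj, rfl⟩
    exact ⟨j, hj, rfl⟩
  · rintro ⟨j, hj, rfl⟩
    exact ⟨j, hj, rfl⟩

lemma lastEnd_cases (x : End) (n m : ℕ) : (m = 0 ∧ lastEnd x n m = x) ∨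
    (0 < m ∧ lastEnd x n m = (n + m - 1, true)) := by
  rcases Nat.eq_zero_or_pos m with h | h
  · exact Or.inl ⟨h, if_pos h⟩
  · exact Or.inr ⟨h, if_neg (by omega)⟩

lemma ends_chain (ν : ℕ) (x : End) (n m : ℕ) (hx : x.1 < n) :
    (ends (chain ν x n m) ++ [lastEnd x n m]).Nodup ∧
    ∀ z ∈ ends (chain ν x n m) ++ [lastEnd x n m], z = x ∨ (n ≤ z.1 ∧ z.1 < n + m) := by
  induction m with
  | zero =>
    have h : ends (chain ν x n 0) = [] := rfl
    have h' : lastEnd x n 0 = x := if_pos rfl
    rw [h, h']
    refine ⟨by simp, ?_⟩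
    intro z hz
    left
    simpa using hz
  | succ m ih =>
    obtain ⟨h1, h2⟩ := ih
    have h3 : lastEnd x n (m + 1) = (n + m, true) := if_neg (by omega)
    have h4 : ends (chain ν x n (m + 1)) ++ [lastEnd x n (m + 1)] =
        (ends (chain ν x n m) ++ [lastEnd x n m]) ++ [(n + m, false), (n + m, true)] := by
      rw [chain_succ, ends_append, h3]
      simp [ends]
    rw [h4]
    have h5 : ∀ b, (n + m, b) ∉ ends (chain ν x n m) ++ [lastEnd x n m] := by
      intro b hb
      rcases h2 _ hb with h | h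
      · rw [← h] at hx
        simp only at hx
        omega
      · simp only at h
        omega
    constructor
    · rw [List.nodup_append]
      refine ⟨h1, by simp, ?_⟩
      intro a ha b hb hab
      subst hab
      simp only [List.mem_cons, List.not_mem_nil, or_false] at hb
      rcases hb with rfl | rfl
      · exact h5 _ ha
      · exact h5 _ ha
    · intro z hz
      rw [List.mem_append] at hz
      rcases hz with hz | hz
      · rcases h2 z hz with h | h
        · exact Or.inl h
        · exact Or.inr ⟨h.1, by omega⟩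
      · simp only [List.mem_cons, List.not_mem_nil, or_false] at hz
        right
        rcases hz with rfl | rfl
        · simp
        · simp

lemma ends_chain' (ν : ℕ) (x : End) (n m : ℕ) (hx : x.1 < n) :
    (ends (chain ν x n m)).Nodup ∧
    ∀ z ∈ ends (chain ν x n m), z = x ∨ (n ≤ z.1 ∧ z.1 < n + m) := by
  obtain ⟨h1, h2⟩ := ends_chain ν x n m hx
  rw [List.nodup_append] at h1
  exact ⟨h1.1, fun z hz => h2 z (List.mem_append_left _ hz)⟩

lemma hBase_succ (t p i : ℕ) : hBase t p (i + 1) = hBase t p i + (rr t - 2) := by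
  rw [hBase, hBase]; ring

lemma aBase_succ (t p i : ℕ) : aBase t p (i + 1) = aBase t p i + kk t := by
  rw [aBase, aBase]; ring

lemma hBase_mono (t p : ℕ) : Monotone (hBase t p) :=
  monotone_nat_of_le_succ fun i => by rw [hBase_succ]; omega

lemma aBase_mono (t p : ℕ) : Monotone (aBase t p) :=
  monotone_nat_of_le_succ fun i => by rw [aBase_succ]; omega

lemma hBase_zero (t p : ℕ) : hBase t p 0 = nC t p := by simp [hBase]

lemma aBase_zero (t p : ℕ) : aBase t p 0 = hBase t p p := by simp [hBase, aBase]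

lemma nC_le_hBase (t p i : ℕ) : nC t p ≤ hBase t p i := by
  rw [← hBase_zero]
  exact hBase_mono t p (Nat.zero_le i)

lemma hBase_le_aBase (t p i : ℕ) : hBase t p p ≤ aBase t p i := by
  rw [← aBase_zero]
  exact aBase_mono t p (Nat.zero_le i)

/-- the members of the ends of a pair -/
lemma ends_pair (t p i : ℕ) (hi : i < p) : (ends (pairSlots t p i)).Nodup ∧
    ∀ z ∈ ends (pairSlots t p i), z = (el t (2 * i), false) ∨ z = (el t (2 * i + 1), false) ∨
      (hBase t p i ≤ z.1 ∧ z.1 < hBase t p (i + 1)) := by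
  have h0 := nC_le_hBase t p i
  obtain ⟨h1, h2⟩ := ends_chain (1 + i) (el t (2 * i), false) (hBase t p i) (rr t - 2) (by
    simp only [nC, el] at *
    omega)
  have h4 : ends (pairSlots t p i) = (ends (chain (1 + i) (el t (2 * i), false) (hBase t p i)
      (rr t - 2)) ++ [lastEnd (el t (2 * i), false) (hBase t p i) (rr t - 2)]) ++
        [(el t (2 * i + 1), false)] := by
    rw [pairSlots, ends_append]
    simp [ends]
  rw [h4]
  constructor
  · rw [List.nodup_append]
    refine ⟨h1, by simp, ?_⟩
    intro a ha b hb hab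
    subst hab
    simp only [List.mem_cons, List.not_mem_nil, or_false] at hb
    subst hb
    rcases h2 _ ha with h | h
    · have := congrArg Prod.fst h
      simp only [el] at this
      omega
    · simp only [nC, el] at *
      omega
  · intro z hz
    rw [List.mem_append] at hz
    rcases hz with hz | hz
    · rcases h2 z hz with h | h
      · exact Or.inl h
      · exact Or.inr (Or.inr ⟨h.1, by rw [hBase_succ]; exact h.2⟩)
    · simp only [List.mem_cons, List.not_mem_nil, or_false] at hz
      exact Or.inr (Or.inl hz)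

lemma gadSlots_sub (t p : ℕ) (g : Gad) (i : ℕ) :
    (gadSlots t p g i).Sublist (chain (1 + p + i) (el t g.2.1, true) (aBase t p i) (kk t)) := by
  rw [gadSlots]
  split_ifs
  · exact List.drop_sublist _ _
  · exact List.Sublist.refl _

lemma ends_gad {t p : ℕ} {gs : List Gad} (h : POk p gs) {i : ℕ} {g : Gad}
    (hg : gs[i]? = some g) : (ends (gadSlots t p g i)).Nodup ∧
    ∀ z ∈ ends (gadSlots t p g i), z = (el t g.2.1, true) ∨
      (aBase t p i ≤ z.1 ∧ z.1 < aBase t p (i + 1)) := by
  have h0 := nC_le_hBase t p p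
  have h0' := hBase_le_aBase t p i
  obtain ⟨h1, -, -⟩ := pok_lt h hg
  obtain ⟨h2, h3⟩ := ends_chain' (1 + p + i) (el t g.2.1, true) (aBase t p i) (kk t) (by
    simp only [nC, el] at *
    omega)
  have h4 : (ends (gadSlots t p g i)).Sublist
      (ends (chain (1 + p + i) (el t g.2.1, true) (aBase t p i) (kk t))) :=
    (gadSlots_sub t p g i).flatMap _
  refine ⟨h2.sublist h4, fun z hz => ?_⟩
  rcases h3 z (h4.subset hz) with h | h
  · exact Or.inl h
  · exact Or.inr ⟨h.1, by rw [aBase_succ]; exact h.2⟩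

/-- the centre slots -/
def cS (t : ℕ) : List Slot := (List.range t).map fun j => (0, (j, true), (j + 1, false))

lemma ends_centre (t : ℕ) : (ends (cS t)).Nodup ∧ ∀ z ∈ ends (cS t), z.1 ≤ t := by
  have h1 : ends (cS t) = (List.range t).flatMap fun j => [(j, true), (j + 1, false)] := by
    rw [ends, cS, List.flatMap_map]
  rw [h1]
  constructor
  · rw [List.nodup_flatMap]
    constructor
    · intro j _
      simp
    · refine (List.nodup_range (n := t)).imp ?_
      intro a b hab z hz hz'
      simp only [List.mem_cons, List.not_mem_nil, or_false] at hz hz'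
      rcases hz with rfl | rfl <;> rcases hz' with h | h <;>
        simp only [Prod.mk.injEq, reduceCtorEq, and_false, and_true] at h <;> omega
  · intro z hz
    simp only [List.mem_flatMap, List.mem_range, List.mem_cons, List.not_mem_nil, or_false] at hz
    obtain ⟨j, hj, rfl | rfl⟩ := hz
    · exact hj.le
    · exact hj

lemma coreS_eq (t p : ℕ) (gs : List Gad) : coreS t p gs = cS t ++
    ((List.range p).flatMap fun i => pairSlots t p i) ++
    (gs.zipIdx.flatMap fun g => gadSlots t p g.1 g.2) := rfl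

lemma ends_flatMap {α : Type} (L : List α) (f : α → List Slot) :
    ends (L.flatMap f) = L.flatMap fun a => ends (f a) := by
  rw [ends, List.flatMap_assoc]
  rfl

lemma nodup_pairs (t p : ℕ) :
    (ends ((List.range p).flatMap fun i => pairSlots t p i)).Nodup ∧
    ∀ z ∈ ends ((List.range p).flatMap fun i => pairSlots t p i),
      (t < z.1 ∧ z.1 < nC t p ∧ z.2 = false) ∨ (nC t p ≤ z.1 ∧ z.1 < aBase t p 0) := by
  rw [ends_flatMap]
  constructor
  · rw [List.nodup_flatMap]
    constructor
    · intro i hi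
      exact (ends_pair t p i (List.mem_range.1 hi)).1
    · refine List.Pairwise.imp_of_mem ?_ (List.pairwise_lt_range (n := p))
      intro i j hi hj hij z hz hz'
      rw [List.mem_range] at hi hj
      have h1 := nC_le_hBase t p i
      have h2 := nC_le_hBase t p j
      have h3 : hBase t p (i + 1) ≤ hBase t p j := hBase_mono t p hij
      rcases (ends_pair t p i hi).2 z hz with rfl | rfl | h <;>
        rcases (ends_pair t p j hj).2 _ hz' with h' | h' | h' <;>
        (try rw [h'] at h) <;>
        (try simp only [Prod.mk.injEq, el, nC] at *) <;> omega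
  · intro z hz
    rw [List.mem_flatMap] at hz
    obtain ⟨i, hi, hz⟩ := hz
    rw [List.mem_range] at hi
    have h1 := nC_le_hBase t p i
    have h3 : hBase t p (i + 1) ≤ hBase t p p := hBase_mono t p hi
    rw [aBase_zero]
    rcases (ends_pair t p i hi).2 z hz with rfl | rfl | h
    · left
      simp only [el, nC]
      exact ⟨by omega, by omega, trivial⟩
    · left
      simp only [el, nC]
      exact ⟨by omega, by omega, trivial⟩
    · right
      omega

lemma nodup_gads (t p : ℕ) (gs : List Gad) (h : POk p gs) :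
    (ends (gs.zipIdx.flatMap fun g => gadSlots t p g.1 g.2)).Nodup ∧
    ∀ z ∈ ends (gs.zipIdx.flatMap fun g => gadSlots t p g.1 g.2),
      (t < z.1 ∧ z.1 < nC t p ∧ z.2 = true) ∨ (aBase t p 0 ≤ z.1) := by
  rw [ends_flatMap]
  constructor
  · rw [List.nodup_flatMap]
    constructor
    · rintro ⟨g, i⟩ hi
      rw [List.mk_mem_zipIdx_iff_getElem?] at hi
      exact (ends_gad h hi).1
    · rw [List.pairwise_iff_getElem]
      intro i j hi hj hij z hz hz'
      rw [List.length_zipIdx] at hi hj
      have e1 : gs.zipIdx[i] = (gs[i], i) := by simp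
      have e2 : gs.zipIdx[j] = (gs[j], j) := by simp
      rw [e1] at hz
      rw [e2] at hz'
      have g1 : gs[i]? = some gs[i] := List.getElem?_eq_getElem hi
      have g2 : gs[j]? = some gs[j] := List.getElem?_eq_getElem hj
      have h1 := nC_le_hBase t p p
      have h2 := hBase_le_aBase t p i
      have h2' := hBase_le_aBase t p j
      have h3 : aBase t p (i + 1) ≤ aBase t p j := aBase_mono t p hij
      have l1 := (pok_lt h g1).1
      have l2 := (pok_lt h g2).1
      have hne : gs[i].2.1 ≠ gs[j].2.1 := by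
        intro he
        have := pok_inj h g1 g2 (e := gs[i].2.1) (by simp) (by rw [he]; simp)
        omega
      rcases (ends_gad h g1).2 z hz with rfl | h4 <;>
        rcases (ends_gad h g2).2 _ hz' with h' | h' <;>
        (try rw [h'] at h4) <;>
        (try simp only [Prod.mk.injEq, el, nC] at *) <;> omega
  · intro z hz
    rw [List.mem_flatMap] at hz
    obtain ⟨⟨g, i⟩, hi, hz⟩ := hz
    rw [List.mk_mem_zipIdx_iff_getElem?] at hi
    have h3 : aBase t p 0 ≤ aBase t p i := aBase_mono t p (Nat.zero_le i)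
    have l1 := (pok_lt h hi).1
    rcases (ends_gad h hi).2 z hz with rfl | h
    · left
      simp only [el, nC]
      exact ⟨by omega, by omega, trivial⟩
    · right
      omega

lemma nodup_core (t p : ℕ) (gs : List Gad) (h : POk p gs) : (ends (coreS t p gs)).Nodup := by
  rw [coreS_eq, ends_append, ends_append, List.nodup_append, List.nodup_append]
  have h1 := nC_le_hBase t p p
  have h2 := aBase_zero t p
  have h5 : t < nC t p := by rw [nC]; omega
  refine ⟨⟨(ends_centre t).1, (nodup_pairs t p).1, ?_⟩, (nodup_gads t p gs h).1, ?_⟩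
  · intro a ha b hb hab
    subst hab
    have h3 := (ends_centre t).2 a ha
    rcases (nodup_pairs t p).2 a hb with h4 | h4 <;> omega
  · intro a ha b hb hab
    subst hab
    rw [List.mem_append] at ha
    rcases (nodup_gads t p gs h).2 a hb with h4 | h4 <;> rcases ha with ha | ha
    · have h3 := (ends_centre t).2 a ha
      omega
    · rcases (nodup_pairs t p).2 a ha with h6 | h6
      · rw [h4.2.2] at h6
        exact absurd h6.2.2 (by decide)
      · omega
    · have h3 := (ends_centre t).2 a ha
      omega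
    · rcases (nodup_pairs t p).2 a ha with h6 | h6 <;> omega

/-- slots of a chain -/
lemma chain_ok {N n ν : ℕ} {e : ℕ → Bool → ℕ} {x : End} {n0 m : ℕ} (hν : ν < N) (hx : x.1 < n0)
    (hxe : e x.1 x.2 = ν) (hn : n0 + m ≤ n) (he : ∀ v, n0 ≤ v → v < n0 + m → ∀ b, e v b = ν) :
    ∀ j ≤ m, ∀ y : End, (y.1 < n ∧ e y.1 y.2 = ν ∧ y.1 ≠ x.1 ∧ (y.1 < n0 ∨ n0 + j ≤ y.1)) →
      ν < N ∧ (lastEnd x n0 j).1 < n ∧ y.1 < n ∧ (lastEnd x n0 j).1 ≠ y.1 ∧
      e (lastEnd x n0 j).1 (lastEnd x n0 j).2 = ν ∧ e y.1 y.2 = ν := by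
  intro j hj y hy
  rcases lastEnd_cases x n0 j with ⟨h1, h2⟩ | ⟨h1, h2⟩
  · rw [h2]
    exact ⟨hν, by omega, hy.1, hy.2.2.1.symm, hxe, hy.2.1⟩
  · rw [h2]
    refine ⟨hν, ?_, hy.1, ?_, ?_, hy.2.1⟩
    · simp only
      omega
    · simp only
      omega
    · exact he _ (by omega) (by omega) _

theorem proof_BCORE : Pool.Agent.W312.TP.BCORE := by
  intro t p gs ht h
  obtain ⟨e, hB, e1, e2, e3⟩ := gen (nC t p) (AA t p gs) (mm t p) (p + gs.length) (AA_lt h)
    (AA_nodup h) (AA_inj h) (p + gs.length) le_rfl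
  rw [ES_core, base_a, ← Nat.add_assoc] at hB
  refine ⟨e, hB, nodup_core t p gs h, ?_⟩
  have k1 := nC_le_hBase t p p
  have k2 := hBase_le_aBase t p gs.length
  change ∀ q ∈ coreS t p gs, q.1 < 1 + p + gs.length ∧ q.2.1.1 < aBase t p gs.length ∧
    q.2.2.1 < aBase t p gs.length ∧ q.2.1.1 ≠ q.2.2.1 ∧ e q.2.1.1 q.2.1.2 = q.1 ∧
    e q.2.2.1 q.2.2.2 = q.1
  intro q hq
  rw [coreS_eq, List.mem_append, List.mem_append] at hq
  rcases hq with (hq | hq) | hq
  · -- centre
    have he : ∀ v ≤ t, ∀ b, e v b = 0 := by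
      intro v hv b
      apply e3 v (by rw [nC]; omega) b
      intro j hj hm
      by_cases hjp : j < p
      · rw [AA_pair hjp] at hm
        simp only [List.mem_cons, List.not_mem_nil, or_false, Prod.mk.injEq, el] at hm
        omega
      · obtain ⟨i, rfl⟩ : ∃ i, j = p + i := ⟨j - p, by omega⟩
        obtain ⟨g, hg⟩ := getElem?_of_lt (gs := gs) (i := i) (by omega)
        rw [AA_gad hg] at hm
        simp only [List.mem_cons, List.not_mem_nil, or_false, Prod.mk.injEq, el] at hm
        omega
    simp only [cS, List.mem_map, List.mem_range] at hq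
    obtain ⟨j, hj, rfl⟩ := hq
    have k3 : t + 1 ≤ nC t p := by rw [nC]; omega
    refine ⟨?_, ?_, ?_, ?_, he j hj.le _, he (j + 1) hj _⟩
    · simp only
      omega
    · simp only
      omega
    · simp only
      omega
    · simp only
      omega
  · -- pairs
    rw [List.mem_flatMap] at hq
    obtain ⟨i, hi, hq⟩ := hq
    rw [List.mem_range] at hi
    have m1 : (el t (2 * i), false) ∈ AA t p gs i := by rw [AA_pair hi]; simp
    have m2 : (el t (2 * i + 1), false) ∈ AA t p gs i := by rw [AA_pair hi]; simp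
    have f1 := e1 i (by omega) _ m1
    have f2 := e1 i (by omega) _ m2
    have k3 := nC_le_hBase t p i
    have k4 : hBase t p (i + 1) ≤ hBase t p p := hBase_mono t p hi
    have k5 := hBase_succ t p i
    have f3 : ∀ v, hBase t p i ≤ v → v < hBase t p i + (rr t - 2) → ∀ b, e v b = 1 + i := by
      intro v hv hv' b
      apply e2 i (by omega) v
      · rw [base_h t p i hi.le]
        exact hv
      · rw [base_h t p (i + 1) hi, hBase_succ]
        exact hv'
    have k6 : el t (2 * i) < nC t p := by simp only [el, nC]; omega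
    have k7 : el t (2 * i + 1) < nC t p := by simp only [el, nC]; omega
    have hc := chain_ok (N := 1 + p + gs.length) (n := aBase t p gs.length) (ν := 1 + i) (e := e)
      (x := (el t (2 * i), false)) (n0 := hBase t p i) (m := rr t - 2) (by omega)
      (by simp only; omega) f1 (by omega) f3
    rw [pairSlots, List.mem_append] at hq
    rcases hq with hq | hq
    · rw [mem_chain] at hq
      obtain ⟨j, hj, rfl⟩ := hq
      refine hc j hj.le (hBase t p i + j, false) ⟨?_, ?_, ?_, ?_⟩
      · simp only
        omega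
      · exact f3 _ (by omega) (by omega) _
      · simp only
        omega
      · right
        simp only
        omega
    · simp only [List.mem_cons, List.not_mem_nil, or_false] at hq
      subst hq
      refine hc (rr t - 2) le_rfl (el t (2 * i + 1), false) ⟨?_, f2, ?_, ?_⟩
      · simp only
        omega
      · simp only [el]
        omega
      · left
        simp only
        omega
  · -- gadgets
    rw [List.mem_flatMap] at hq
    obtain ⟨⟨g, i⟩, hi, hq⟩ := hq
    rw [List.mk_mem_zipIdx_iff_getElem?] at hi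
    have hil := lt_of_getElem? hi
    have m1 : (el t g.2.1, true) ∈ AA t p gs (p + i) := by rw [AA_gad hi]; simp
    have f1 := e1 (p + i) (by omega) _ m1
    rw [← Nat.add_assoc] at f1
    have k3 := hBase_le_aBase t p i
    have k4 : aBase t p (i + 1) ≤ aBase t p gs.length := aBase_mono t p hil
    have k5 := aBase_succ t p i
    have f3 : ∀ v, aBase t p i ≤ v → v < aBase t p i + kk t → ∀ b, e v b = 1 + p + i := by
      intro v hv hv' b
      rw [Nat.add_assoc 1 p i]
      apply e2 (p + i) (by omega) v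
      · rw [base_a]
        exact hv
      · rw [Nat.add_assoc, base_a, aBase_succ]
        exact hv'
    have k6 : el t g.2.1 < nC t p := by
      have := (pok_lt h hi).1
      simp only [el, nC]
      omega
    have hc := chain_ok (N := 1 + p + gs.length) (n := aBase t p gs.length) (ν := 1 + p + i)
      (e := e) (x := (el t g.2.1, true)) (n0 := aBase t p i) (m := kk t) (by omega)
      (by simp only; omega) f1 (by omega) f3
    have hq' := (gadSlots_sub t p g i).subset hq
    rw [mem_chain] at hq'
    obtain ⟨j, hj, rfl⟩ := hq'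
    refine hc j hj.le (aBase t p i + j, false) ⟨?_, ?_, ?_, ?_⟩
    · simp only
      omega
    · exact f3 _ (by omega) (by omega) _
    · simp only
      omega
    · right
      simp only
      omega

end Pool.Agent.W924.TP
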